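import Mathlib

/-!
# Pairs of points at a distance: comparison with close pairs
-/

open Finset

namespace Pool.Agent.TH800

/-- number of pairs (with weights) at distance at most `h` -/
noncomputable def PP (S : Finset ℝ) (m : ℝ → ℝ) (h : ℝ) : ℝ :=
  ∑ g ∈ S, ∑ g' ∈ S.filter (fun g' => |g - g'| ≤ h), m g * m g'

/-- `∑ m m' / (g - g')²` over the pairs at distance more than `h` -/
noncomputable def FP (S : Finset ℝ) (m : ℝ → ℝ) (h : ℝ) : ℝ :=
  ∑ g ∈ S, ∑ g' ∈ S.filter (fun g' => ¬ |g - g'| ≤ h), m g * m g' * (1 / (g - g') ^ 2)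

/-- `1 / k²` on the integers, `0` at `0` -/
noncomputable def ak (k : ℤ) : ℝ := if k = 0 then 0 else 1 / (k : ℝ) ^ 2

lemma ak_nonneg (k : ℤ) : 0 ≤ ak k := by
  unfold ak
  split_ifs
  · exact le_rfl
  · positivity

lemma ak_neg (k : ℤ) : ak (-k) = ak k := by
  unfold ak
  simp

lemma sum_pos_part (J : Finset ℤ) (hJ : ∀ k ∈ J, 0 < k) : ∑ k ∈ J, ak k ≤ 2 := by
  classical
  have h1 : ∑ k ∈ J, ak k = ∑ n ∈ J.image Int.toNat, ((n : ℝ) ^ 2)⁻¹ := by
    rw [Finset.sum_image]
    · refine Finset.sum_congr rfl fun k hk => ?_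
      have h := hJ k hk
      unfold ak
      rw [if_neg h.ne', one_div]
      congr 2
      have : ((Int.toNat k : ℕ) : ℤ) = k := Int.toNat_of_nonneg h.le
      exact_mod_cast this.symm
    · intro k hk k' hk' h
      have h1 := hJ k hk
      have h2 := hJ k' hk'
      omega
  rw [h1]
  set N := (J.image Int.toNat).sup id + 1
  have h2 : J.image Int.toNat ⊆ Finset.Ioo 0 N := by
    intro n hn
    rw [Finset.mem_Ioo]
    constructor
    · obtain ⟨k, hk, rfl⟩ := Finset.mem_image.1 hn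
      have := hJ k hk
      omega
    · have := Finset.le_sup (f := id) hn
      simp only [id_eq] at this
      omega
  refine (Finset.sum_le_sum_of_subset_of_nonneg h2 fun _ _ _ => by positivity).trans ?_
  refine (sum_Ioo_inv_sq_le (α := ℝ) 0 N).trans ?_
  norm_num

lemma sum_ak (J : Finset ℤ) (i : ℤ) : ∑ j ∈ J, ak (i - j) ≤ 4 := by
  classical
  have h0 : ∑ j ∈ J, ak (i - j) = ∑ k ∈ J.image (fun j => i - j), ak k := by
    rw [Finset.sum_image]
    intro a _ b _ h
    simp only at h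
    omega
  rw [h0]
  set K := J.image (fun j => i - j)
  have h1 : ∑ k ∈ K, ak k = ∑ k ∈ K.filter (fun k => 0 < k), ak k +
      ∑ k ∈ K.filter (fun k => ¬ 0 < k), ak k := (Finset.sum_filter_add_sum_filter_not K _ _).symm
  have h2 : ∑ k ∈ K.filter (fun k => 0 < k), ak k ≤ 2 :=
    sum_pos_part _ fun k hk => (Finset.mem_filter.1 hk).2
  have h3 : ∑ k ∈ K.filter (fun k => ¬ 0 < k), ak k ≤ 2 := by
    have e1 : ∑ k ∈ K.filter (fun k => ¬ 0 < k), ak k =
        ∑ k ∈ (K.filter (fun k => ¬ 0 < k)).filter (fun k => k ≠ 0), ak k := by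
      symm
      apply Finset.sum_filter_of_ne
      intro k _ hk h
      rw [h] at hk
      exact hk (by simp [ak])
    rw [e1]
    have e2 : ∑ k ∈ (K.filter (fun k => ¬ 0 < k)).filter (fun k => k ≠ 0), ak k =
        ∑ k ∈ ((K.filter (fun k => ¬ 0 < k)).filter (fun k => k ≠ 0)).image (fun k => -k), ak k := by
      rw [Finset.sum_image]
      · exact Finset.sum_congr rfl fun k _ => (ak_neg k).symm
      · intro a _ b _ h
        simp only at h
        omega
    rw [e2]
    refine sum_pos_part _ fun k hk => ?_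
    obtain ⟨a, ha, rfl⟩ := Finset.mem_image.1 hk
    rw [Finset.mem_filter, Finset.mem_filter] at ha
    omega
  linarith

lemma block_form (J : Finset ℤ) (n : ℤ → ℝ) :
    ∑ i ∈ J, ∑ j ∈ J, n i * n j * ak (i - j) ≤ 4 * ∑ i ∈ J, n i ^ 2 := by
  have h1 : ∑ i ∈ J, ∑ j ∈ J, n i * n j * ak (i - j) ≤
      ∑ i ∈ J, ∑ j ∈ J, (n i ^ 2 / 2 * ak (i - j) + n j ^ 2 / 2 * ak (i - j)) := by
    refine Finset.sum_le_sum fun i _ => Finset.sum_le_sum fun j _ => ?_
    rw [← add_mul]
    refine mul_le_mul_of_nonneg_right ?_ (ak_nonneg _)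
    nlinarith [sq_nonneg (n i - n j)]
  have h2 : ∑ i ∈ J, ∑ j ∈ J, n j ^ 2 / 2 * ak (i - j) =
      ∑ i ∈ J, ∑ j ∈ J, n i ^ 2 / 2 * ak (i - j) := by
    rw [Finset.sum_comm]
    refine Finset.sum_congr rfl fun i _ => Finset.sum_congr rfl fun j _ => ?_
    rw [← ak_neg (i - j), neg_sub]
  simp_rw [Finset.sum_add_distrib] at h1
  rw [h2] at h1
  have h3 : ∑ i ∈ J, ∑ j ∈ J, n i ^ 2 / 2 * ak (i - j) ≤ ∑ i ∈ J, n i ^ 2 / 2 * 4 := by
    refine Finset.sum_le_sum fun i _ => ?_
    rw [← Finset.mul_sum]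
    exact mul_le_mul_of_nonneg_left (sum_ak J i) (by positivity)
  have h4 : ∑ i ∈ J, n i ^ 2 / 2 * 4 = 2 * ∑ i ∈ J, n i ^ 2 := by
    rw [Finset.mul_sum]
    exact Finset.sum_congr rfl fun i _ => by ring
  linarith

/-- the far pairs are controlled by the close pairs -/
theorem FP_le (S : Finset ℝ) (m : ℝ → ℝ) (hm : ∀ g, 0 ≤ m g) (h : ℝ) (hh : 0 < h) :
    FP S m h ≤ 16 / h ^ 2 * PP S m h := by
  classical
  set j : ℝ → ℤ := fun g => ⌊g / h⌋ with hj
  set J := S.image j with hJ
  set n : ℤ → ℝ := fun i => ∑ g ∈ S.filter (fun g => j g = i), m g with hn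
  -- step 1: pointwise bound
  have hpt : ∀ g g' : ℝ, ¬ |g - g'| ≤ h → 1 / (g - g') ^ 2 ≤ 4 / h ^ 2 * ak (j g - j g') := by
    intro g g' hgg
    push Not at hgg
    have a1 : (j g : ℝ) ≤ g / h := Int.floor_le _
    have a2 : g / h < j g + 1 := Int.lt_floor_add_one _
    have a3 : (j g' : ℝ) ≤ g' / h := Int.floor_le _
    have a4 : g' / h < j g' + 1 := Int.lt_floor_add_one _
    set x := g / h
    set y := g' / h
    have hg : g = x * h := (div_mul_cancel₀ g hh.ne').symm
    have hg' : g' = y * h := (div_mul_cancel₀ g' hh.ne').symm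
    have hxy : 1 < |x - y| := by
      have : |g - g'| = |x - y| * h := by
        rw [hg, hg', ← sub_mul, abs_mul, abs_of_pos hh]
      rw [this] at hgg
      by_contra hc
      push Not at hc
      nlinarith
    have hk : j g - j g' ≠ 0 := by
      intro hk0
      have : (j g : ℝ) = j g' := by
        have : j g = j g' := by omega
        exact_mod_cast this
      have : |x - y| < 1 := by
        rw [abs_lt]
        constructor <;> linarith
      linarith
    have hkey : |((j g - j g' : ℤ) : ℝ)| ≤ 2 * |x - y| := by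
      push_cast
      have : |(j g : ℝ) - j g'| ≤ |x - y| + 1 := by
        rw [abs_le]
        have b1 := neg_abs_le (x - y)
        have b2 := le_abs_self (x - y)
        constructor <;> linarith
      linarith
    unfold ak
    rw [if_neg hk]
    have e1 : (g - g') ^ 2 = |x - y| ^ 2 * h ^ 2 := by
      rw [hg, hg', sq_abs]
      ring
    have hpos : 0 < |((j g - j g' : ℤ) : ℝ)| := by
      rw [abs_pos]
      exact_mod_cast hk
    have e2 : ((j g - j g' : ℤ) : ℝ) ^ 2 = |((j g - j g' : ℤ) : ℝ)| ^ 2 := (sq_abs _).symm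
    rw [e1, e2, div_mul_div_comm, mul_one, div_le_div_iff₀ (by positivity) (by positivity)]
    have : |((j g - j g' : ℤ) : ℝ)| ^ 2 ≤ (2 * |x - y|) ^ 2 :=
      pow_le_pow_left₀ hpos.le hkey 2
    nlinarith [sq_nonneg h]
  -- step 2: sum by blocks
  have h1 : FP S m h ≤ ∑ g ∈ S, ∑ g' ∈ S, m g * m g' * (4 / h ^ 2 * ak (j g - j g')) := by
    unfold FP
    refine Finset.sum_le_sum fun g _ => ?_
    refine le_trans (Finset.sum_le_sum fun g' hg' => ?_)
      (Finset.sum_le_sum_of_subset_of_nonneg (Finset.filter_subset _ _) fun g' _ _ => ?_)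
    · exact mul_le_mul_of_nonneg_left (hpt g g' (Finset.mem_filter.1 hg').2)
        (mul_nonneg (hm g) (hm g'))
    · exact mul_nonneg (mul_nonneg (hm g) (hm g'))
        (mul_nonneg (by positivity) (ak_nonneg _))
  have h2 : ∑ g ∈ S, ∑ g' ∈ S, m g * m g' * (4 / h ^ 2 * ak (j g - j g')) =
      4 / h ^ 2 * ∑ i ∈ J, ∑ k ∈ J, n i * n k * ak (i - k) := by
    have key : ∀ f : ℤ → ℤ → ℝ, ∑ g ∈ S, ∑ g' ∈ S, m g * m g' * f (j g) (j g') =
        ∑ i ∈ J, ∑ k ∈ J, n i * n k * f i k := by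
      intro f
      have hmaps : ∀ g ∈ S, j g ∈ J := fun g hg => Finset.mem_image_of_mem _ hg
      rw [← Finset.sum_fiberwise_of_maps_to hmaps]
      refine Finset.sum_congr rfl fun i _ => ?_
      have : ∀ g ∈ S.filter (fun g => j g = i), ∑ g' ∈ S, m g * m g' * f (j g) (j g') =
          m g * ∑ k ∈ J, n k * f i k := by
        intro g hg
        rw [(Finset.mem_filter.1 hg).2]
        rw [← Finset.sum_fiberwise_of_maps_to hmaps, Finset.mul_sum]
        refine Finset.sum_congr rfl fun k _ => ?_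
        rw [hn]
        simp only
        rw [Finset.sum_mul, Finset.mul_sum]
        refine Finset.sum_congr rfl fun g' hg' => ?_
        rw [(Finset.mem_filter.1 hg').2]
        ring
      rw [Finset.sum_congr rfl this, ← Finset.sum_mul, Finset.mul_sum]
      exact Finset.sum_congr rfl fun k _ => by rw [hn]; ring
    rw [← key (fun i k => ak (i - k)), Finset.mul_sum]
    refine Finset.sum_congr rfl fun g _ => ?_
    rw [Finset.mul_sum]
    exact Finset.sum_congr rfl fun g' _ => by ring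
  have h3 : ∑ i ∈ J, n i ^ 2 ≤ PP S m h := by
    unfold PP
    have hmaps : ∀ g ∈ S, j g ∈ J := fun g hg => Finset.mem_image_of_mem _ hg
    rw [← Finset.sum_fiberwise_of_maps_to hmaps]
    refine Finset.sum_le_sum fun i _ => ?_
    rw [sq, hn]
    simp only
    rw [Finset.sum_mul]
    refine Finset.sum_le_sum fun g hg => ?_
    rw [Finset.mul_sum]
    refine Finset.sum_le_sum_of_subset_of_nonneg ?_ fun g' _ _ => mul_nonneg (hm g) (hm g')
    intro g' hg'
    rw [Finset.mem_filter] at hg hg' ⊢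
    refine ⟨hg'.1, ?_⟩
    have c1 : j g = j g' := by rw [hg.2, hg'.2]
    have a1 : (j g : ℝ) ≤ g / h := Int.floor_le _
    have a2 : g / h < j g + 1 := Int.lt_floor_add_one _
    have a3 : (j g' : ℝ) ≤ g' / h := Int.floor_le _
    have a4 : g' / h < j g' + 1 := Int.lt_floor_add_one _
    rw [← c1] at a3 a4
    rw [le_div_iff₀ hh] at a1 a3
    rw [div_lt_iff₀ hh] at a2 a4
    rw [abs_le]
    constructor <;> nlinarith
  calc FP S m h ≤ 4 / h ^ 2 * ∑ i ∈ J, ∑ k ∈ J, n i * n k * ak (i - k) := by rw [← h2]; exact h1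
    _ ≤ 4 / h ^ 2 * (4 * ∑ i ∈ J, n i ^ 2) :=
        mul_le_mul_of_nonneg_left (block_form J n) (by positivity)
    _ ≤ 4 / h ^ 2 * (4 * PP S m h) :=
        mul_le_mul_of_nonneg_left (mul_le_mul_of_nonneg_left h3 (by norm_num)) (by positivity)
    _ = 16 / h ^ 2 * PP S m h := by ring

end Pool.Agent.TH800
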