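import Pool.Agent.TH800.LongKer
import Pool.Agent.TH800.BlockPair

/-!
# Long averages of a nonnegative cosine sum over pairs
-/

open Finset MeasureTheory

namespace Pool.Agent.TH800

/-- double sum over pairs with a kernel depending on the scaled difference -/
noncomputable def DS (S : Finset ℝ) (m W : ℝ → ℝ) (L : ℝ) (K : ℝ → ℝ) : ℝ :=
  ∑ g ∈ S, ∑ g' ∈ S, m g * m g' * W (g - g') * K (L * (g - g'))

/-- the cosine sum -/
noncomputable def QQ (S : Finset ℝ) (m W : ℝ → ℝ) (L α : ℝ) : ℝ :=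
  DS S m W L (fun v => Real.cos (v * α))

section
variable (S : Finset ℝ) (m W : ℝ → ℝ) (L : ℝ)

lemma DS_lin (K : ℝ → ℝ) (c : ℝ) : DS S m W L (fun v => c * K v) = c * DS S m W L K := by
  unfold DS
  rw [Finset.mul_sum]
  refine Finset.sum_congr rfl fun g _ => ?_
  rw [Finset.mul_sum]
  exact Finset.sum_congr rfl fun g' _ => by ring

lemma DS_sub (K K' : ℝ → ℝ) : DS S m W L (fun v => K v - K' v) =
    DS S m W L K - DS S m W L K' := by
  unfold DS
  rw [← Finset.sum_sub_distrib]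
  refine Finset.sum_congr rfl fun g _ => ?_
  rw [← Finset.sum_sub_distrib]
  exact Finset.sum_congr rfl fun g' _ => by ring

lemma hasDerivAt_Phi (x : ℝ) :
    HasDerivAt (fun y => DS S m W L (fun v => phi v y)) (QQ S m W L x) x := by
  unfold QQ DS
  refine HasDerivAt.fun_sum fun g _ => HasDerivAt.fun_sum fun g' _ => ?_
  exact (hasDerivAt_phi _ x).const_mul _

lemma hasDerivAt_Psi (x : ℝ) :
    HasDerivAt (fun y => DS S m W L (fun v => psi v y)) (DS S m W L (fun v => phi v x)) x := by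
  unfold DS
  refine HasDerivAt.fun_sum fun g _ => HasDerivAt.fun_sum fun g' _ => ?_
  exact (hasDerivAt_psi _ x).const_mul _

lemma QQ_cont : Continuous (QQ S m W L) := by
  unfold QQ DS
  fun_prop

lemma int_QQ (a b : ℝ) : ∫ α in a..b, QQ S m W L α =
    DS S m W L (fun v => phi v b) - DS S m W L (fun v => phi v a) :=
  intervalIntegral.integral_eq_sub_of_hasDerivAt (fun x _ => hasDerivAt_Phi S m W L x)
    ((QQ_cont S m W L).intervalIntegrable _ _)

lemma Phi_mono (hQ : ∀ α, 0 ≤ QQ S m W L α) {a b : ℝ} (hab : a ≤ b) :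
    DS S m W L (fun v => phi v a) ≤ DS S m W L (fun v => phi v b) := by
  have h := int_QQ S m W L a b
  have h1 : 0 ≤ ∫ α in a..b, QQ S m W L α :=
    intervalIntegral.integral_nonneg hab fun x _ => hQ x
  linarith

lemma Psi_mvt (y η : ℝ) (hη : 0 < η) : ∃ ξ, y < ξ ∧ ξ < y + η ∧
    DS S m W L (fun v => psi v (y + η)) - DS S m W L (fun v => psi v y) =
      η * DS S m W L (fun v => phi v ξ) := by
  obtain ⟨c, hc, h⟩ := exists_hasDerivAt_eq_slope (fun y => DS S m W L (fun v => psi v y))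
    (fun y => DS S m W L (fun v => phi v y)) (a := y) (b := y + η)
    (by linarith) (fun z _ => (hasDerivAt_Psi S m W L z).continuousAt.continuousWithinAt)
    (fun z _ => hasDerivAt_Psi S m W L z)
  refine ⟨c, hc.1, hc.2, ?_⟩
  rw [h, add_sub_cancel_left, mul_div_cancel₀ _ hη.ne']

lemma Phi_le (hQ : ∀ α, 0 ≤ QQ S m W L α) (y η : ℝ) (hη : 0 < η) :
    DS S m W L (fun v => phi v y) ≤
      (1 / η) * (DS S m W L (fun v => psi v (y + η)) - DS S m W L (fun v => psi v y)) := by
  obtain ⟨ξ, h1, _, h3⟩ := Psi_mvt S m W L y η hη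
  rw [h3, ← mul_assoc, one_div, inv_mul_cancel₀ hη.ne', one_mul]
  exact Phi_mono S m W L hQ h1.le

lemma le_Phi (hQ : ∀ α, 0 ≤ QQ S m W L α) (y η : ℝ) (hη : 0 < η) :
    (1 / η) * (DS S m W L (fun v => psi v y) - DS S m W L (fun v => psi v (y - η))) ≤
      DS S m W L (fun v => phi v y) := by
  obtain ⟨ξ, _, h2, h3⟩ := Psi_mvt S m W L (y - η) η hη
  rw [sub_add_cancel] at h3 h2
  rw [h3, ← mul_assoc, one_div, inv_mul_cancel₀ hη.ne', one_mul]
  exact Phi_mono S m W L hQ h2.le

/-- integral over a window, bounded above by the majorant kernel -/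
lemma int_le_kp (hQ : ∀ α, 0 ≤ QQ S m W L α) (b l η : ℝ) (hη : 0 < η) :
    ∫ α in b..(b + l), QQ S m W L α ≤ DS S m W L (kp b l η) := by
  rw [int_QQ]
  have h1 := Phi_le S m W L hQ (b + l) η hη
  have h2 := le_Phi S m W L hQ b η hη
  have e : DS S m W L (kp b l η) = (1 / η) * ((DS S m W L (fun v => psi v (b + l + η)) -
      DS S m W L (fun v => psi v (b + l))) - (DS S m W L (fun v => psi v b) -
      DS S m W L (fun v => psi v (b - η)))) := by
    rw [← DS_sub, ← DS_sub, ← DS_sub, ← DS_lin]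
    rfl
  rw [e, mul_sub]
  linarith

lemma km_le_int (hQ : ∀ α, 0 ≤ QQ S m W L α) (b l η : ℝ) (hη : 0 < η) :
    DS S m W L (km b l η) ≤ ∫ α in b..(b + l), QQ S m W L α := by
  rw [int_QQ]
  have h1 := le_Phi S m W L hQ (b + l) η hη
  have h2 := Phi_le S m W L hQ b η hη
  have e : DS S m W L (km b l η) = (1 / η) * ((DS S m W L (fun v => psi v (b + l)) -
      DS S m W L (fun v => psi v (b + l - η))) - (DS S m W L (fun v => psi v (b + η)) -
      DS S m W L (fun v => psi v b))) := by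
    rw [← DS_sub, ← DS_sub, ← DS_sub, ← DS_lin]
    rfl
  rw [e, mul_sub]
  linarith

lemma k0_le_int (hQ : ∀ α, 0 ≤ QQ S m W L α) (l η : ℝ) (hη : 0 < η) :
    DS S m W L (k0 l η) ≤ ∫ α in (0 : ℝ)..l, QQ S m W L α := by
  rw [int_QQ]
  have h1 := le_Phi S m W L hQ l η hη
  have e : DS S m W L (k0 l η) = (1 / η) * (DS S m W L (fun v => psi v l) -
      DS S m W L (fun v => psi v (l - η))) := by
    rw [← DS_sub, ← DS_lin]
    rfl
  have e0 : DS S m W L (fun v => phi v 0) = 0 := by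
    unfold DS
    simp [phi_zero]
  rw [e, e0, sub_zero]
  exact h1

variable {S m W L}

/-- upper bound of a pair sum with a kernel bounded by `A` and by `B / v²` off the diagonal -/
lemma DS_le (hm : ∀ g, 0 ≤ m g) (hW0 : ∀ u, 0 ≤ W u) (hW1 : ∀ u, W u ≤ 1) (hL : 0 < L)
    {h A B : ℝ} (hh : 0 < h) (hA : 0 ≤ A) (hB : 0 ≤ B) (K : ℝ → ℝ) (hK : ∀ v, K v ≤ A)
    (hK' : ∀ v, v ≠ 0 → K v ≤ B * (1 / v ^ 2)) :
    DS S m W L K ≤ A * PP S m h + B * (1 / L ^ 2) * FP S m h := by
  classical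
  unfold DS PP FP
  rw [Finset.mul_sum, Finset.mul_sum, ← Finset.sum_add_distrib]
  refine Finset.sum_le_sum fun g _ => ?_
  rw [← Finset.sum_filter_add_sum_filter_not S (fun g' => |g - g'| ≤ h)]
  refine add_le_add ?_ ?_
  · rw [Finset.mul_sum]
    refine Finset.sum_le_sum fun g' _ => ?_
    have h1 : W (g - g') * K (L * (g - g')) ≤ A := by
      calc W (g - g') * K (L * (g - g')) ≤ W (g - g') * A :=
            mul_le_mul_of_nonneg_left (hK _) (hW0 _)
        _ ≤ 1 * A := mul_le_mul_of_nonneg_right (hW1 _) hA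
        _ = A := one_mul A
    have h2 := mul_le_mul_of_nonneg_left h1 (mul_nonneg (hm g) (hm g'))
    calc m g * m g' * W (g - g') * K (L * (g - g')) =
        m g * m g' * (W (g - g') * K (L * (g - g'))) := by ring
      _ ≤ m g * m g' * A := h2
      _ = A * (m g * m g') := by ring
  · rw [Finset.mul_sum]
    refine Finset.sum_le_sum fun g' hg' => ?_
    have hg := (Finset.mem_filter.1 hg').2
    have hne : g - g' ≠ 0 := by
      intro h0
      rw [h0, abs_zero] at hg
      exact hg hh.le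
    have h3 := hK' (L * (g - g')) (mul_ne_zero hL.ne' hne)
    have h4 : 0 ≤ B * (1 / (L * (g - g')) ^ 2) := by positivity
    have h1 : W (g - g') * K (L * (g - g')) ≤ B * (1 / (L * (g - g')) ^ 2) := by
      calc W (g - g') * K (L * (g - g')) ≤ W (g - g') * (B * (1 / (L * (g - g')) ^ 2)) :=
            mul_le_mul_of_nonneg_left h3 (hW0 _)
        _ ≤ 1 * (B * (1 / (L * (g - g')) ^ 2)) := mul_le_mul_of_nonneg_right (hW1 _) h4
        _ = _ := one_mul _
    have h2 := mul_le_mul_of_nonneg_left h1 (mul_nonneg (hm g) (hm g'))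
    calc m g * m g' * W (g - g') * K (L * (g - g')) =
        m g * m g' * (W (g - g') * K (L * (g - g'))) := by ring
      _ ≤ m g * m g' * (B * (1 / (L * (g - g')) ^ 2)) := h2
      _ = B * (1 / L ^ 2) * (m g * m g' * (1 / (g - g') ^ 2)) := by
        rw [mul_pow, ← one_div_mul_one_div]
        ring

/-- lower bound of a pair sum: the diagonal contributes `A₀`, the close pairs at least `-A`, the
others at least `-B / v²` -/
lemma DS_ge (hm : ∀ g, 0 ≤ m g) (hW0 : ∀ u, 0 ≤ W u) (hW1 : ∀ u, W u ≤ 1) (hW : W 0 = 1)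
    (hL : 0 < L) {h A B A0 : ℝ} (hh : 0 < h) (hA : 0 ≤ A) (hB : 0 ≤ B) (K : ℝ → ℝ)
    (hK : ∀ v, -A ≤ K v) (hK0 : A0 ≤ K 0) (hK' : ∀ v, v ≠ 0 → -(B * (1 / v ^ 2)) ≤ K v) :
    (A0 + A) * (∑ g ∈ S, m g ^ 2) - A * PP S m h - B * (1 / L ^ 2) * FP S m h ≤
      DS S m W L K := by
  classical
  unfold DS PP FP
  rw [Finset.mul_sum, Finset.mul_sum, Finset.mul_sum, ← Finset.sum_sub_distrib,
    ← Finset.sum_sub_distrib]
  refine Finset.sum_le_sum fun g hgS => ?_
  rw [← Finset.sum_filter_add_sum_filter_not S (fun g' => |g - g'| ≤ h)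
    (fun g' => m g * m g' * W (g - g') * K (L * (g - g')))]
  have hfar : -(B * (1 / L ^ 2) * ∑ g' ∈ S.filter (fun g' => ¬ |g - g'| ≤ h),
      m g * m g' * (1 / (g - g') ^ 2)) ≤ ∑ g' ∈ S.filter (fun g' => ¬ |g - g'| ≤ h),
      m g * m g' * W (g - g') * K (L * (g - g')) := by
    rw [Finset.mul_sum, ← Finset.sum_neg_distrib]
    refine Finset.sum_le_sum fun g' hg' => ?_
    have hg := (Finset.mem_filter.1 hg').2
    have hne : g - g' ≠ 0 := by
      intro h0
      rw [h0, abs_zero] at hg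
      exact hg hh.le
    have h3 := hK' (L * (g - g')) (mul_ne_zero hL.ne' hne)
    have h4 : 0 ≤ B * (1 / (L * (g - g')) ^ 2) := by positivity
    have h1 : -(B * (1 / (L * (g - g')) ^ 2)) ≤ W (g - g') * K (L * (g - g')) := by
      have s1 := mul_le_mul_of_nonneg_left h3 (hW0 (g - g'))
      have s2 := mul_le_mul_of_nonneg_right (hW1 (g - g')) h4
      linarith
    have h2 := mul_le_mul_of_nonneg_left h1 (mul_nonneg (hm g) (hm g'))
    calc -(B * (1 / L ^ 2) * (m g * m g' * (1 / (g - g') ^ 2))) =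
        m g * m g' * -(B * (1 / (L * (g - g')) ^ 2)) := by
          rw [mul_pow, ← one_div_mul_one_div]
          ring
      _ ≤ m g * m g' * (W (g - g') * K (L * (g - g'))) := h2
      _ = m g * m g' * W (g - g') * K (L * (g - g')) := by ring
  have hnear : (A0 + A) * m g ^ 2 - A * ∑ g' ∈ S.filter (fun g' => |g - g'| ≤ h), m g * m g' ≤
      ∑ g' ∈ S.filter (fun g' => |g - g'| ≤ h), m g * m g' * W (g - g') * K (L * (g - g')) := by
    have hmem : g ∈ S.filter (fun g' => |g - g'| ≤ h) := by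
      rw [Finset.mem_filter, sub_self, abs_zero]
      exact ⟨hgS, hh.le⟩
    rw [← Finset.add_sum_erase _ _ hmem, ← Finset.add_sum_erase _
      (fun g' => m g * m g' * W (g - g') * K (L * (g - g'))) hmem]
    have hd : (A0 + A) * m g ^ 2 - A * (m g * m g) ≤
        m g * m g * W (g - g) * K (L * (g - g)) := by
      rw [sub_self, mul_zero, hW, mul_one]
      have := mul_le_mul_of_nonneg_left hK0 (mul_nonneg (hm g) (hm g))
      nlinarith
    have ho : -(A * ∑ g' ∈ (S.filter (fun g' => |g - g'| ≤ h)).erase g, m g * m g') ≤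
        ∑ g' ∈ (S.filter (fun g' => |g - g'| ≤ h)).erase g,
          m g * m g' * W (g - g') * K (L * (g - g')) := by
      rw [Finset.mul_sum, ← Finset.sum_neg_distrib]
      refine Finset.sum_le_sum fun g' _ => ?_
      have h1 : -A ≤ W (g - g') * K (L * (g - g')) := by
        have s1 := mul_le_mul_of_nonneg_left (hK (L * (g - g'))) (hW0 (g - g'))
        have s2 := mul_le_mul_of_nonneg_right (hW1 (g - g')) hA
        linarith
      have h2 := mul_le_mul_of_nonneg_left h1 (mul_nonneg (hm g) (hm g'))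
      calc -(A * (m g * m g')) = m g * m g' * -A := by ring
        _ ≤ m g * m g' * (W (g - g') * K (L * (g - g'))) := h2
        _ = m g * m g' * W (g - g') * K (L * (g - g')) := by ring
    linarith
  linarith

end

/-- the three bounds, for a finite set of points with close pairs at most `C X` and total mass
at least `c X` -/
theorem long_avg (S : Finset ℝ) (m W : ℝ → ℝ) (L : ℝ) (hm : ∀ g, 0 ≤ m g)
    (hW0 : ∀ u, 0 ≤ W u) (hW1 : ∀ u, W u ≤ 1) (hW : W 0 = 1) (hL : 0 < L)
    (hQ : ∀ α, 0 ≤ QQ S m W L α) (δ : ℝ) (hδ : 0 < δ) (b l η : ℝ) (hη : 0 < η)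
    (hl : 2 * η ≤ l) :
    (∫ α in b..(b + l), QQ S m W L α ≤ (l + 2 * η + 64 / (η * δ ^ 2)) * PP S m (δ / L)) ∧
    ((2 * l - η) * (∑ g ∈ S, m g ^ 2) - (l + 64 / (η * δ ^ 2)) * PP S m (δ / L) ≤
      ∫ α in b..(b + l), QQ S m W L α) ∧
    ((l - η + 2173 / 10000 * l) * (∑ g ∈ S, m g ^ 2) -
      (2173 / 10000 * l + 64 / (η * δ ^ 2)) * PP S m (δ / L) ≤
      ∫ α in (0 : ℝ)..l, QQ S m W L α) := by
  have hh : 0 < δ / L := div_pos hδ hL
  have hFP := FP_le S m hm (δ / L) hh
  have hB : (0 : ℝ) ≤ 4 / η := by positivity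
  have hfar : 4 / η * (1 / L ^ 2) * FP S m (δ / L) ≤ 64 / (η * δ ^ 2) * PP S m (δ / L) := by
    have h1 := mul_le_mul_of_nonneg_left hFP (show 0 ≤ 4 / η * (1 / L ^ 2) by positivity)
    refine h1.trans (le_of_eq ?_)
    field_simp
    ring
  have hD0 : 0 ≤ ∑ g ∈ S, m g ^ 2 := Finset.sum_nonneg fun g _ => sq_nonneg _
  refine ⟨?_, ?_, ?_⟩
  · have h1 := int_le_kp S m W L hQ b l η hη
    have h2 := DS_le (S := S) hm hW0 hW1 hL hh (A := l + 2 * η) (by linarith) hB (kp b l η)
      (fun v => kp_le b l η v hη (by linarith)) (fun v hv => kp_far b l η v hη hv)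
    linarith
  · have h1 := km_le_int S m W L hQ b l η hη
    have h2 := DS_ge (S := S) hm hW0 hW1 hW hL hh (A := l) (A0 := l - η) (by linarith) hB
      (km b l η) (fun v => km_ge b l η v hη hl) (km_diag b l η hη).ge
      (fun v hv => km_far b l η v hη hv)
    linarith
  · have h1 := k0_le_int S m W L hQ l η hη
    have h2 := DS_ge (S := S) hm hW0 hW1 hW hL hh (A := 2173 / 10000 * l) (A0 := l - η)
      (by linarith) hB (k0 l η) (fun v => by
        have := k0_ge l η v hη (by linarith)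
        linarith) (by rw [k0_diag l η hη]; linarith)
      (fun v hv => k0_far l η v hη hv)
    linarith

end Pool.Agent.TH800
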