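import Mathlib

/-!
# Kernels for long averages of cosine sums
-/

open Finset

namespace Pool.Agent.TH800

/-- the primitive of `cos (v ·)` -/
noncomputable def phi (v x : ℝ) : ℝ := if v = 0 then x else Real.sin (v * x) / v

/-- the second primitive of `cos (v ·)` -/
noncomputable def psi (v x : ℝ) : ℝ := if v = 0 then x ^ 2 / 2 else (1 - Real.cos (v * x)) / v ^ 2

lemma hasDerivAt_phi (v x : ℝ) : HasDerivAt (phi v) (Real.cos (v * x)) x := by
  unfold phi
  by_cases hv : v = 0
  · simp only [hv, if_true, zero_mul, Real.cos_zero]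
    exact hasDerivAt_id x
  · simp only [hv, if_false]
    have h1 : HasDerivAt (fun y : ℝ => v * y) v x := by
      simpa using (hasDerivAt_id x).const_mul v
    have h2 := (h1.sin).div_const v
    rwa [mul_div_assoc, div_self hv, mul_one] at h2

lemma hasDerivAt_psi (v x : ℝ) : HasDerivAt (psi v) (phi v x) x := by
  unfold phi psi
  by_cases hv : v = 0
  · simp only [hv, if_true]
    have h := (hasDerivAt_pow 2 x).div_const 2
    have e : ((2 : ℕ) : ℝ) * x ^ (2 - 1) / 2 = x := by norm_num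
    rwa [e] at h
  · simp only [hv, if_false]
    have h1 : HasDerivAt (fun y : ℝ => v * y) v x := by
      simpa using (hasDerivAt_id x).const_mul v
    have h2 := ((h1.cos).const_sub 1).div_const (v ^ 2)
    have e : -(-Real.sin (v * x) * v) / v ^ 2 = Real.sin (v * x) / v := by
      field_simp
    rwa [e] at h2

lemma phi_zero (v : ℝ) : phi v 0 = 0 := by
  unfold phi
  split_ifs <;> simp

lemma phi_sub_le (v x y : ℝ) (hxy : x ≤ y) : |phi v y - phi v x| ≤ y - x := by
  have h := Convex.norm_image_sub_le_of_norm_hasDerivWithin_le (f := phi v)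
    (f' := fun z => Real.cos (v * z)) (s := Set.univ) (C := 1) (x := x) (y := y)
    (fun z _ => (hasDerivAt_phi v z).hasDerivWithinAt)
    (fun z _ => by rw [Real.norm_eq_abs]; exact Real.abs_cos_le_one _) convex_univ
    (Set.mem_univ _) (Set.mem_univ _)
  rw [Real.norm_eq_abs, Real.norm_eq_abs, one_mul, abs_of_nonneg (sub_nonneg.2 hxy)] at h
  exact h

/-- mean value theorem for `psi` -/
lemma psi_mvt (v y η : ℝ) (hη : 0 < η) : ∃ ξ, y < ξ ∧ ξ < y + η ∧
    psi v (y + η) - psi v y = η * phi v ξ := by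
  obtain ⟨c, hc, h⟩ := exists_hasDerivAt_eq_slope (psi v) (phi v) (a := y) (b := y + η)
    (by linarith) (fun z _ => (hasDerivAt_psi v z).continuousAt.continuousWithinAt)
    (fun z _ => hasDerivAt_psi v z)
  refine ⟨c, hc.1, hc.2, ?_⟩
  rw [h, add_sub_cancel_left, mul_div_cancel₀ _ hη.ne']

lemma psi_far (v x : ℝ) (hv : v ≠ 0) : 0 ≤ psi v x ∧ psi v x ≤ 2 / v ^ 2 := by
  unfold psi
  rw [if_neg hv]
  have h1 := Real.cos_le_one (v * x)
  have h2 := Real.neg_one_le_cos (v * x)
  have h3 : 0 < v ^ 2 := by positivity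
  refine ⟨div_nonneg (by linarith) h3.le, ?_⟩
  gcongr
  linarith

/-- `sin x ≥ -0.2173 x` for `x ≥ 0` -/
lemma sin_ge (x : ℝ) (hx : 0 ≤ x) : -(2173 / 10000) * x ≤ Real.sin x := by
  have hpi1 := Real.pi_gt_d6
  have hpi2 := Real.pi_lt_d6
  rcases le_or_gt x Real.pi with h1 | h1
  · have := Real.sin_nonneg_of_nonneg_of_le_pi hx h1
    linarith
  · rcases le_or_gt x (3.8) with h2 | h2
    · have h3 : Real.sin x = -Real.sin (x - Real.pi) := by rw [Real.sin_sub_pi, neg_neg]
      have h4 := Real.sin_le (x := x - Real.pi) (by linarith)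
      rw [h3]
      linarith
    · rcases le_or_gt x 4.7 with h5 | h5
      · have h6 : Real.sin x = -Real.cos (3 * Real.pi / 2 - x) := by
          rw [show 3 * Real.pi / 2 - x = (Real.pi / 2 - x) + Real.pi by ring, Real.cos_add_pi,
            Real.cos_pi_div_two_sub, neg_neg]
        set z := 3 * Real.pi / 2 - x with hz
        have hz0 : 0 ≤ z := by rw [hz]; linarith
        have hz1 : z ≤ 1 := by rw [hz]; linarith
        have h7 := Real.cos_bound (x := z) (by rw [abs_of_nonneg hz0]; exact hz1)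
        rw [abs_of_nonneg hz0] at h7
        have h8 := (abs_le.1 h7).2
        rw [h6]
        have hx' : x = 3 * Real.pi / 2 - z := by rw [hz]; ring
        rw [hx']
        have h9 : z ^ 4 * (5 / 96) ≤ z ^ 2 * (5 / 96) := by
          have : z ^ 4 ≤ z ^ 2 := pow_le_pow_of_le_one hz0 hz1 (by norm_num)
          linarith
        -- need `cos z ≤ 0.2173 (3π/2 - z)`
        have h10 : z ^ 4 * (5 / 96) ≤ 1 / 8000 + (z - 219 / 1000) ^ 2 * (1 / 3) := by
          nlinarith [sq_nonneg (z ^ 2 - 1 / 20), sq_nonneg (z - 219 / 1000), mul_nonneg hz0 hz0,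
            mul_nonneg (mul_nonneg hz0 hz0) (sub_nonneg.2 hz1), mul_nonneg hz0 (sub_nonneg.2 hz1)]
        nlinarith [sq_nonneg (z - 2173 / 10000)]
      · have := Real.neg_one_le_sin x
        linarith

lemma phi_ge (v x : ℝ) (hx : 0 ≤ x) : -(2173 / 10000) * x ≤ phi v x := by
  unfold phi
  split_ifs with hv
  · linarith
  · rcases lt_or_gt_of_ne hv with h | h
    · have h1 := sin_ge ((-v) * x) (by nlinarith)
      have h2 : Real.sin (v * x) / v = Real.sin ((-v) * x) / (-v) := by
        rw [neg_mul, Real.sin_neg, neg_div_neg_eq]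
      rw [h2, le_div_iff₀ (by linarith)]
      linarith
    · have h1 := sin_ge (v * x) (by positivity)
      rw [le_div_iff₀ h]
      linarith

/-- kernel of the majorant -/
noncomputable def kp (b l η v : ℝ) : ℝ :=
  (1 / η) * ((psi v (b + l + η) - psi v (b + l)) - (psi v b - psi v (b - η)))

/-- kernel of the minorant -/
noncomputable def km (b l η v : ℝ) : ℝ :=
  (1 / η) * ((psi v (b + l) - psi v (b + l - η)) - (psi v (b + η) - psi v b))

/-- kernel of the minorant of `[0, l]` -/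
noncomputable def k0 (l η v : ℝ) : ℝ := (1 / η) * (psi v l - psi v (l - η))

lemma kp_le (b l η v : ℝ) (hη : 0 < η) (hl : 0 ≤ l) : kp b l η v ≤ l + 2 * η := by
  obtain ⟨x, hx1, hx2, hx⟩ := psi_mvt v (b + l) η hη
  obtain ⟨y, hy1, hy2, hy⟩ := psi_mvt v (b - η) η hη
  rw [sub_add_cancel] at hy hy2
  unfold kp
  rw [hx, hy, ← mul_sub, ← mul_assoc, one_div, inv_mul_cancel₀ hη.ne', one_mul]
  have h := (abs_le.1 (phi_sub_le v y x (by linarith))).2
  linarith

lemma kp_far (b l η v : ℝ) (hη : 0 < η) (hv : v ≠ 0) : kp b l η v ≤ (4 / η) * (1 / v ^ 2) := by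
  unfold kp
  have h1 := psi_far v (b + l + η) hv
  have h2 := psi_far v (b + l) hv
  have h3 := psi_far v b hv
  have h4 := psi_far v (b - η) hv
  have h5 : (4 / η) * (1 / v ^ 2) = (1 / η) * (2 / v ^ 2 + 2 / v ^ 2) := by ring
  rw [h5]
  refine mul_le_mul_of_nonneg_left ?_ (by positivity)
  linarith [h1.2, h2.1, h3.1, h4.2]

lemma km_ge (b l η v : ℝ) (hη : 0 < η) (hl : 2 * η ≤ l) : -l ≤ km b l η v := by
  obtain ⟨x, hx1, hx2, hx⟩ := psi_mvt v (b + l - η) η hη
  obtain ⟨y, hy1, hy2, hy⟩ := psi_mvt v b η hη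
  rw [sub_add_cancel] at hx hx2
  unfold km
  rw [hx, hy, ← mul_sub, ← mul_assoc, one_div, inv_mul_cancel₀ hη.ne', one_mul]
  have h := (abs_le.1 (phi_sub_le v y x (by linarith))).1
  linarith

lemma km_diag (b l η : ℝ) (hη : 0 < η) : km b l η 0 = l - η := by
  unfold km psi
  simp only [if_true]
  field_simp
  ring

lemma km_far (b l η v : ℝ) (hη : 0 < η) (hv : v ≠ 0) : -((4 / η) * (1 / v ^ 2)) ≤ km b l η v := by
  unfold km
  have h1 := psi_far v (b + l) hv
  have h2 := psi_far v (b + l - η) hv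
  have h3 := psi_far v (b + η) hv
  have h4 := psi_far v b hv
  have h5 : -((4 / η) * (1 / v ^ 2)) = (1 / η) * (-(2 / v ^ 2) - 2 / v ^ 2) := by ring
  rw [h5]
  refine mul_le_mul_of_nonneg_left ?_ (by positivity)
  linarith [h1.1, h2.2, h3.2, h4.1]

lemma k0_ge (l η v : ℝ) (hη : 0 < η) (hl : η ≤ l) : -(2173 / 10000) * l ≤ k0 l η v := by
  obtain ⟨x, hx1, hx2, hx⟩ := psi_mvt v (l - η) η hη
  rw [sub_add_cancel] at hx hx2
  unfold k0
  rw [hx, ← mul_assoc, one_div, inv_mul_cancel₀ hη.ne', one_mul]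
  have h := phi_ge v x (by linarith)
  linarith

lemma k0_diag (l η : ℝ) (hη : 0 < η) : k0 l η 0 = l - η / 2 := by
  unfold k0 psi
  simp only [if_true]
  field_simp
  ring

lemma k0_far (l η v : ℝ) (hη : 0 < η) (hv : v ≠ 0) : -((4 / η) * (1 / v ^ 2)) ≤ k0 l η v := by
  unfold k0
  have h1 := psi_far v l hv
  have h2 := psi_far v (l - η) hv
  have h5 : -((4 / η) * (1 / v ^ 2)) = (1 / η) * (-(2 / v ^ 2) - 2 / v ^ 2) := by ring
  rw [h5]
  refine mul_le_mul_of_nonneg_left ?_ (by positivity)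
  have : 0 ≤ 2 / v ^ 2 := by positivity
  linarith [h1.1, h2.2]

end Pool.Agent.TH800
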